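import Mathlib

/-!
# Self-avoiding walks on percolation clusters: convergence along sparse lengths is enough

`σ G n v` is the number of the self-avoiding walks with `n` steps from `v` in the graph `G`. If all
vertices of `G` have at most `D` neighbours, and `σ_n(v) ^ (1/n)`, `σ_n(w) ^ (1/n)` converge along two
sequences of lengths with quotients tending to `1`, where `v`, `w` are in the same component, then the
limits are equal and both sequences converge along all lengths.

The proof uses `σ_(n+1)(v) ≤ D σ_n(v)` and, for neighbours `v`, `w`,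
`σ_n(v) ≤ σ_(n+1)(w) + ∑ σ_k(w) σ_(n-k)(w)` (a walk from `v` is continued to `w` if it avoids `w`, and
otherwise it is cut at `w`).
-/

set_option autoImplicit false

open Filter Topology

namespace Pool.Agent.Results.MP_425fca_pr.SparseTimes

variable {V : Type} (G : SimpleGraph V)

/-- The self-avoiding walks with `n` steps from `v`: the walk visits `v` and then the entries of the
list `t`. -/
def T (v : V) (n : ℕ) : Set (List V) :=
  {t | t.length = n ∧ List.IsChain G.Adj (v :: t) ∧ (v :: t).Nodup}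

/-- `σ n v`: the number of self-avoiding walks with `n` steps from `v`. -/
noncomputable def σ (n : ℕ) (v : V) : ℕ := (T G v n).ncard

/-- All vertices have at most `D` neighbours. -/
def DegreeLe (D : ℕ) : Prop := ∀ v, (G.neighborSet v).Finite ∧ (G.neighborSet v).ncard ≤ D

variable {G}

theorem T_zero (v : V) : T G v 0 = {[]} := by
  ext t
  constructor
  · exact fun h => List.length_eq_zero_iff.1 h.1
  · rintro rfl
    exact ⟨rfl, by simp, by simp⟩

theorem mem_T_append {v x : V} {s : List V} {n : ℕ} (h : s ++ [x] ∈ T G v (n + 1)) :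
    s ∈ T G v n ∧ x ∈ G.neighborSet ((v :: s).getLast (by simp)) := by
  obtain ⟨h1, h2, h3⟩ := h
  rw [← List.cons_append] at h2 h3
  refine ⟨⟨?_, ?_, ?_⟩, ?_⟩
  · simpa using h1
  · exact (List.isChain_append.1 h2).1
  · exact (List.nodup_append.1 h3).1
  · have := (List.isChain_append.1 h2).2.2
    exact this _ (List.getLast_mem_getLast? (by simp)) x (by simp)

/-- the extensions of a walk by one step -/
def Ext (v : V) (s : List V) : Set (List V) :=
  (fun x => s ++ [x]) '' G.neighborSet ((v :: s).getLast (by simp))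

theorem T_succ (v : V) (n : ℕ) : T G v (n + 1) ⊆ ⋃ s ∈ T G v n, Ext (G := G) v s := by
  intro t ht
  have hne : t ≠ [] := by
    rintro rfl
    have := ht.1
    simp at this
  obtain ⟨s, x, rfl⟩ : ∃ s x, t = s ++ [x] :=
    ⟨t.dropLast, t.getLast hne, (List.dropLast_append_getLast hne).symm⟩
  obtain ⟨h1, h2⟩ := mem_T_append ht
  rw [Set.mem_iUnion₂]
  exact ⟨s, h1, x, h2, rfl⟩

theorem finite_T {D : ℕ} (hD : DegreeLe G D) (v : V) (n : ℕ) : (T G v n).Finite := by
  induction n with
  | zero => rw [T_zero]; exact Set.finite_singleton _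
  | succ n ih =>
    refine (ih.biUnion fun s _ => ?_).subset (T_succ v n)
    exact (hD _).1.image _

theorem ncard_biUnion_le {α β : Type} {A : Set α} (hA : A.Finite) (F : α → Set β) (D : ℕ)
    (hF : ∀ a ∈ A, (F a).Finite ∧ (F a).ncard ≤ D) : (⋃ a ∈ A, F a).ncard ≤ D * A.ncard := by
  classical
  induction A, hA using Set.Finite.induction_on with
  | empty => simp
  | @insert a A ha hA ih =>
    rw [Set.biUnion_insert, Set.ncard_insert_of_notMem ha hA]
    have h1 := ih fun b hb => hF b (Set.mem_insert_of_mem _ hb)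
    have h2 := hF a (Set.mem_insert _ _)
    have h3 := Set.ncard_union_le (F a) (⋃ b ∈ A, F b)
    have h4 : D * (A.ncard + 1) = D * A.ncard + D := by ring
    omega

theorem σ_succ {D : ℕ} (hD : DegreeLe G D) (v : V) (n : ℕ) : σ G (n + 1) v ≤ D * σ G n v := by
  unfold σ
  have hfin := finite_T hD v n
  have hF : ∀ s ∈ T G v n, (Ext (G := G) v s).Finite ∧ (Ext (G := G) v s).ncard ≤ D := fun s _ =>
    ⟨(hD _).1.image _, (Set.ncard_image_le (hD _).1).trans (hD _).2⟩
  refine (Set.ncard_le_ncard (T_succ v n) (hfin.biUnion fun s hs => (hF s hs).1)).trans ?_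
  exact ncard_biUnion_le hfin _ D hF

theorem split {D : ℕ} (hD : DegreeLe G D) {v w : V} (hvw : G.Adj v w) (n : ℕ) :
    σ G n v ≤ σ G (n + 1) w + ∑ k ∈ Finset.range (n + 1), σ G k w * σ G (n - k) w := by
  classical
  unfold σ
  set A : Set (List V) := {t | t ∈ T G v n ∧ v :: t ∈ T G w (n + 1)} with hA
  set B : ℕ → Set (List V) := fun k =>
    (fun q : List V × List V => (q.1.reverse ++ w :: q.2).tail) '' (T G w k ×ˢ T G w (n - k)) with hB
  have hsub : T G v n ⊆ A ∪ ⋃ k ∈ Finset.range (n + 1), B k := by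
    intro t ht
    obtain ⟨h1, h2, h3⟩ := ht
    by_cases hw : w ∈ v :: t
    · right
      have hwv : w ≠ v := hvw.ne'
      have hwt : w ∈ t := by
        rcases List.mem_cons.1 hw with h | h
        · exact absurd h hwv
        · exact h
      obtain ⟨t₁, t₂, rfl⟩ := List.append_of_mem hwt
      rw [Set.mem_iUnion₂]
      rw [← List.cons_append] at h2 h3
      have hlen : (v :: t₁).reverse.length + t₂.length = n := by
        simp at h1 ⊢
        omega
      refine ⟨(v :: t₁).reverse.length, ?_, ((v :: t₁).reverse, t₂), ⟨⟨rfl, ?_, ?_⟩,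
        ⟨by show t₂.length = _; omega, ?_, ?_⟩⟩, ?_⟩
      · rw [Finset.mem_range]
        omega
      · -- chain of the reversed part
        have e1 : List.IsChain G.Adj ((v :: t₁) ++ [w]) := by
          have : (v :: t₁) ++ w :: t₂ = ((v :: t₁) ++ [w]) ++ t₂ := by simp
          rw [this] at h2
          exact (List.isChain_append.1 h2).1
        have e2 : w :: (v :: t₁).reverse = ((v :: t₁) ++ [w]).reverse := by simp
        show List.IsChain G.Adj (w :: (v :: t₁).reverse)
        rw [e2, List.isChain_reverse]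
        refine e1.imp fun a b hab => hab.symm
      · have e1 : ((v :: t₁) ++ [w]).Nodup := by
          have : (v :: t₁) ++ w :: t₂ = ((v :: t₁) ++ [w]) ++ t₂ := by simp
          rw [this] at h3
          exact (List.nodup_append.1 h3).1
        have e2 : w :: (v :: t₁).reverse = ((v :: t₁) ++ [w]).reverse := by simp
        show (w :: (v :: t₁).reverse).Nodup
        rw [e2, List.nodup_reverse]
        exact e1
      · exact (List.isChain_append.1 h2).2.1
      · exact (List.nodup_append.1 h3).2.1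
      · simp
    · left
      refine ⟨⟨h1, h2, h3⟩, ?_, ?_, ?_⟩
      · simp [h1]
      · exact List.isChain_cons_cons.2 ⟨hvw.symm, h2⟩
      · exact List.nodup_cons.2 ⟨hw, h3⟩
  have hAfin : A.Finite := (finite_T hD v n).subset fun t ht => ht.1
  have hBfin : ∀ k ∈ Finset.range (n + 1), (B k).Finite := fun k _ =>
    ((finite_T hD w k).prod (finite_T hD w (n - k))).image _
  have hUfin : (⋃ k ∈ Finset.range (n + 1), B k).Finite :=
    (Finset.finite_toSet _).biUnion hBfin
  have hAcard : A.ncard ≤ (T G w (n + 1)).ncard :=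
    Set.ncard_le_ncard_of_injOn (fun t => v :: t) (fun t ht => ht.2)
      (fun t _ t' _ h => (List.cons.inj h).2) (finite_T hD w (n + 1))
  have hUcard : (⋃ k ∈ Finset.range (n + 1), B k).ncard ≤
      ∑ k ∈ Finset.range (n + 1), (T G w k).ncard * (T G w (n - k)).ncard := by
    refine (Finset.set_ncard_biUnion_le _ _).trans (Finset.sum_le_sum fun k _ => ?_)
    refine (Set.ncard_image_le ((finite_T hD w k).prod (finite_T hD w (n - k)))).trans ?_
    rw [Set.ncard_prod]
  calc (T G v n).ncard ≤ (A ∪ ⋃ k ∈ Finset.range (n + 1), B k).ncard :=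
        Set.ncard_le_ncard hsub (hAfin.union hUfin)
    _ ≤ A.ncard + (⋃ k ∈ Finset.range (n + 1), B k).ncard := Set.ncard_union_le _ _
    _ ≤ _ := Nat.add_le_add hAcard hUcard

/-- the exponential bounds for all bases above `μ` -/
def Hyp (G : SimpleGraph V) (μ : ℝ) (v : V) : Prop :=
  ∀ ρ : ℝ, μ < ρ → ∃ C : ℝ, 0 ≤ C ∧ ∀ n : ℕ, (σ G n v : ℝ) ≤ C * ρ ^ n

theorem hyp_adj {D : ℕ} (hD : DegreeLe G D) {μ : ℝ} (hμ : 0 ≤ μ) {v w : V} (hvw : G.Adj v w)
    (h : Hyp G μ w) : Hyp G μ v := by
  intro ρ hρ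
  obtain ⟨C, hC, h1⟩ := h ((μ + ρ) / 2) (by linarith)
  set r : ℝ := (μ + ρ) / 2 with hr
  have hr0 : 0 < r := by rw [hr]; linarith
  have hrρ : r < ρ := by rw [hr]; linarith
  have hρ0 : 0 < ρ := hr0.trans hrρ
  -- `(n + 1) (r / ρ) ^ n` is bounded
  have hq : r / ρ < 1 := (div_lt_one hρ0).2 hrρ
  have hb : Tendsto (fun n : ℕ => (n : ℝ) * (r / ρ) ^ n) atTop (𝓝 0) :=
    tendsto_self_mul_const_pow_of_lt_one (by positivity) hq
  obtain ⟨K, hK⟩ := hb.bddAbove_range
  have hK0 : 0 ≤ K := by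
    have := hK ⟨0, rfl⟩
    simpa using this
  refine ⟨C * r + C ^ 2 * (K + 1), by positivity, fun n => ?_⟩
  have h2 := split hD hvw n
  have h3 : (σ G n v : ℝ) ≤ σ G (n + 1) w +
      ∑ k ∈ Finset.range (n + 1), (σ G k w : ℝ) * σ G (n - k) w := by exact_mod_cast h2
  have h4 : ∑ k ∈ Finset.range (n + 1), (σ G k w : ℝ) * σ G (n - k) w ≤
      ∑ k ∈ Finset.range (n + 1), C ^ 2 * r ^ n := by
    refine Finset.sum_le_sum fun k hk => ?_
    have hk' : k + (n - k) = n := by
      have := Finset.mem_range.1 hk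
      omega
    calc (σ G k w : ℝ) * σ G (n - k) w ≤ (C * r ^ k) * (C * r ^ (n - k)) :=
          mul_le_mul (h1 k) (h1 (n - k)) (Nat.cast_nonneg _) (by positivity)
      _ = C ^ 2 * (r ^ k * r ^ (n - k)) := by ring
      _ = C ^ 2 * r ^ n := by rw [← pow_add, hk']
  rw [Finset.sum_const, Finset.card_range, nsmul_eq_mul] at h4
  have h5 : (n : ℝ) * r ^ n ≤ K * ρ ^ n := by
    have := hK ⟨n, rfl⟩
    simp only [div_pow] at this
    rw [mul_div_assoc', div_le_iff₀ (by positivity)] at this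
    exact this
  have h6 : r ^ n ≤ ρ ^ n := pow_le_pow_left₀ hr0.le hrρ.le n
  have h7 : (σ G (n + 1) w : ℝ) ≤ C * r * ρ ^ n := by
    calc (σ G (n + 1) w : ℝ) ≤ C * r ^ (n + 1) := h1 (n + 1)
      _ = C * r * r ^ n := by ring
      _ ≤ C * r * ρ ^ n := mul_le_mul_of_nonneg_left h6 (by positivity)
  have h8 : ((n + 1 : ℕ) : ℝ) * (C ^ 2 * r ^ n) ≤ C ^ 2 * (K + 1) * ρ ^ n := by
    push_cast
    have : ((n : ℝ) + 1) * r ^ n ≤ (K + 1) * ρ ^ n := by nlinarith
    calc ((n : ℝ) + 1) * (C ^ 2 * r ^ n) = C ^ 2 * (((n : ℝ) + 1) * r ^ n) := by ring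
      _ ≤ C ^ 2 * ((K + 1) * ρ ^ n) := mul_le_mul_of_nonneg_left this (by positivity)
      _ = _ := by ring
  calc (σ G n v : ℝ) ≤ C * r * ρ ^ n + C ^ 2 * (K + 1) * ρ ^ n := by linarith
    _ = _ := by ring

theorem hyp_reachable {D : ℕ} (hD : DegreeLe G D) {μ : ℝ} (hμ : 0 ≤ μ) {v w : V}
    (hvw : G.Reachable v w) (h : Hyp G μ w) : Hyp G μ v := by
  obtain ⟨p⟩ := hvw
  induction p with
  | nil => exact h
  | cons hadj _ ih => exact hyp_adj hD hμ hadj (ih h)

/-- the real sequences -/
theorem seq_conv {f : ℕ → ℝ} {C : ℝ} (hC : 0 ≤ C) (hf : ∀ n, 0 ≤ f n)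
    (hstep : ∀ n m : ℕ, n ≤ m → f m ≤ f n + C * ((m : ℝ) - n)) {n : ℕ → ℕ}
    (hn : Tendsto n atTop atTop) (hq : Tendsto (fun k => (n (k + 1) : ℝ) / n k) atTop (𝓝 1))
    {L : ℝ} (hL : Tendsto (fun k => f (n k) / n k) atTop (𝓝 L)) :
    Tendsto (fun m : ℕ => f m / m) atTop (𝓝 L) := by
  have hL0 : 0 ≤ L := ge_of_tendsto' hL fun k => div_nonneg (hf _) (Nat.cast_nonneg _)
  rw [Metric.tendsto_nhds]
  intro ε hε
  set c : ℝ := min 1 (ε / (2 * (C + 1))) with hc
  have hc0 : 0 < c := lt_min one_pos (by positivity)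
  have hc1 : c ≤ 1 := min_le_left _ _
  have hc2 : C * c < ε / 2 := by
    have h1 : c ≤ ε / (2 * (C + 1)) := min_le_right _ _
    rw [le_div_iff₀ (by positivity)] at h1
    nlinarith
  have e1 : ∀ᶠ k in atTop, (n (k + 1) : ℝ) / n k < 1 + c :=
    hq.eventually (gt_mem_nhds (by linarith))
  have e2 : ∀ᶠ k in atTop, |f (n k) / n k - L| < ε / 4 := by
    have := (Metric.tendsto_nhds.1 hL) (ε / 4) (by positivity)
    simpa [Real.dist_eq] using this
  have e3 : ∀ᶠ k in atTop, 1 ≤ n k := hn.eventually (eventually_ge_atTop 1)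
  obtain ⟨K, hK⟩ := eventually_atTop.1 (e1.and (e2.and e3))
  filter_upwards [eventually_ge_atTop (n K)] with m hm
  have hex : ∃ k, K ≤ k ∧ m < n k := by
    obtain ⟨k, hk⟩ := eventually_atTop.1 ((hn.eventually (eventually_gt_atTop m)).and
      (eventually_ge_atTop K))
    exact ⟨k, (hk k le_rfl).2, (hk k le_rfl).1⟩
  classical
  obtain ⟨h1, h2⟩ := Nat.find_spec hex
  set k := Nat.find hex with hk
  have h3 : K ≠ k := by
    intro h
    rw [← h] at h2
    omega
  obtain ⟨j, hj⟩ : ∃ j, k = j + 1 := ⟨k - 1, by omega⟩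
  have h4 : K ≤ j := by omega
  have h5 : n j ≤ m := by
    by_contra h
    exact Nat.find_min hex (m := j) (by omega) ⟨h4, by omega⟩
  obtain ⟨g1, g2, g3⟩ := hK j h4
  obtain ⟨-, g4, -⟩ := hK k h1
  have p1 : (0 : ℝ) < n j := by exact_mod_cast g3
  have p2 : (n j : ℝ) ≤ m := by exact_mod_cast h5
  have p3 : (m : ℝ) ≤ n k := by exact_mod_cast h2.le
  have p4 : (0 : ℝ) < m := p1.trans_le p2
  have p5 : (0 : ℝ) < n k := p4.trans_le p3
  have g5 : (n k : ℝ) ≤ (1 + c) * n j := by
    rw [div_lt_iff₀ p1, ← hj] at g1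
    exact g1.le
  have q1 := hstep (n j) m h5
  have q2 := hstep m (n k) h2.le
  have r1 : f (n j) ≤ (L + ε / 4) * n j := by
    have := (abs_lt.1 g2).2
    have h6 : f (n j) / n j ≤ L + ε / 4 := by linarith
    rwa [div_le_iff₀ p1] at h6
  have r2 : (L - ε / 4) * n k ≤ f (n k) := by
    have := (abs_lt.1 g4).1
    have h6 : L - ε / 4 ≤ f (n k) / n k := by linarith
    rwa [le_div_iff₀ p5] at h6
  have r3 : C * ((m : ℝ) - n j) ≤ C * (c * m) := mul_le_mul_of_nonneg_left (by nlinarith) hC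
  have r4 : C * ((n k : ℝ) - m) ≤ C * (c * m) := mul_le_mul_of_nonneg_left (by nlinarith) hC
  have r5 : (L + ε / 4) * n j ≤ (L + ε / 4) * m := mul_le_mul_of_nonneg_left p2 (by linarith)
  have r6 : C * c * m ≤ ε / 2 * m := mul_le_mul_of_nonneg_right hc2.le p4.le
  have g6 : (n k : ℝ) ≤ 2 * m := by nlinarith
  have r7 : (L - ε / 2) * m ≤ (L - ε / 4) * n k := by
    rcases le_total 0 (L - ε / 4) with hs | hs
    · nlinarith
    · have r8 : (L - ε / 4) * (2 * m) ≤ (L - ε / 4) * n k := mul_le_mul_of_nonpos_left g6 hs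
      nlinarith [mul_nonneg hL0 p4.le]
  rw [Real.dist_eq, abs_lt]
  constructor
  · have : L - ε < f m / m := by
      rw [lt_div_iff₀ p4]
      nlinarith
    linarith
  · have : f m / m < L + ε := by
      rw [div_lt_iff₀ p4]
      nlinarith
    linarith

/-- the `n`-th root of the number of the walks -/
noncomputable def root (G : SimpleGraph V) (v : V) (n : ℕ) : ℝ := (σ G n v : ℝ) ^ ((1 : ℝ) / n)

/-- Along some sequence of lengths that tends to infinity, with quotients tending to `1`, the roots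
`σ_n(v) ^ (1/n)` converge to `μ`. -/
def SparseLimit (G : SimpleGraph V) (v : V) (μ : ℝ) : Prop :=
  ∃ n : ℕ → ℕ, Tendsto n atTop atTop ∧ Tendsto (fun k => (n (k + 1) : ℝ) / n k) atTop (𝓝 1) ∧
    Tendsto (fun k => root G v (n k)) atTop (𝓝 μ)

theorem root_nonneg (v : V) (n : ℕ) : 0 ≤ root G v n := Real.rpow_nonneg (Nat.cast_nonneg _) _

theorem full {D : ℕ} (hD : DegreeLe G D) {v : V} {μ : ℝ} (h : SparseLimit G v μ) :
    Tendsto (root G v) atTop (𝓝 μ) := by
  obtain ⟨n, hn, hq, hL⟩ := h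
  by_cases hz : ∃ N, σ G N v = 0
  · obtain ⟨N, hN⟩ := hz
    have h1 : ∀ m, N ≤ m → σ G m v = 0 := by
      intro m hm
      induction m, hm using Nat.le_induction with
      | base => exact hN
      | succ m _ ih =>
        have := σ_succ hD v m
        rw [ih, Nat.mul_zero] at this
        omega
    have h2 : Tendsto (root G v) atTop (𝓝 0) := by
      refine tendsto_const_nhds.congr' ?_
      filter_upwards [eventually_ge_atTop N, eventually_ge_atTop 1] with m hm hm1
      unfold root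
      rw [h1 m hm, Nat.cast_zero, Real.zero_rpow]
      have : (0 : ℝ) < m := by exact_mod_cast hm1
      positivity
    have h3 : μ = 0 := tendsto_nhds_unique hL (h2.comp hn)
    rw [h3]
    exact h2
  · have hpos : ∀ N, 1 ≤ σ G N v := fun N => Nat.one_le_iff_ne_zero.2 fun h => hz ⟨N, h⟩
    have hposR : ∀ N, (1 : ℝ) ≤ σ G N v := fun N => by exact_mod_cast hpos N
    have hD1 : 1 ≤ D := by
      by_contra hD0
      have h1 := σ_succ hD v 0
      have h2 := hpos 1
      have h3 : D = 0 := by omega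
      rw [h3, Nat.zero_mul] at h1
      simp at h1
      omega
    have hDR : (1 : ℝ) ≤ D := by exact_mod_cast hD1
    have hC : 0 ≤ Real.log D := Real.log_nonneg hDR
    have hone : ∀ N, Real.log (σ G (N + 1) v) ≤ Real.log (σ G N v) + Real.log D := by
      intro N
      have h1 : ((σ G (N + 1) v : ℕ) : ℝ) ≤ D * σ G N v := by exact_mod_cast σ_succ hD v N
      have h2 := Real.log_le_log (zero_lt_one.trans_le (hposR (N + 1))) h1
      rw [Real.log_mul (by positivity) (zero_lt_one.trans_le (hposR N)).ne'] at h2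
      linarith
    have hstep : ∀ a b : ℕ, a ≤ b →
        Real.log (σ G b v) ≤ Real.log (σ G a v) + Real.log D * ((b : ℝ) - a) := by
      intro a b hab
      induction b, hab using Nat.le_induction with
      | base => simp
      | succ b _ ih =>
        have := hone b
        push_cast
        linarith
    have hroot : ∀ N, root G v N = Real.exp (Real.log (σ G N v) / N) := by
      intro N
      unfold root
      rw [Real.rpow_def_of_pos (zero_lt_one.trans_le (hposR N)), mul_one_div]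
    have hμ : 0 < μ := by
      refine zero_lt_one.trans_le (ge_of_tendsto' hL fun k => ?_)
      rw [hroot]
      exact Real.one_le_exp (div_nonneg (Real.log_nonneg (hposR _)) (Nat.cast_nonneg _))
    have h1 : Tendsto (fun k => Real.log (σ G (n k) v) / n k) atTop (𝓝 (Real.log μ)) := by
      refine (hL.log hμ.ne').congr fun k => ?_
      rw [hroot, Real.log_exp]
    have h2 := seq_conv (f := fun N => Real.log (σ G N v)) hC
      (fun N => Real.log_nonneg (hposR N)) hstep hn hq h1
    have h3 := (Real.continuous_exp.tendsto _).comp h2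
    rw [Real.exp_log hμ] at h3
    exact h3.congr fun N => (hroot N).symm

theorem hyp_of_tendsto {w : V} {ν : ℝ} (h : Tendsto (root G w) atTop (𝓝 ν)) : Hyp G ν w := by
  intro ρ hρ
  have hν : 0 ≤ ν := ge_of_tendsto' h fun n => root_nonneg w n
  have hρ0 : 0 < ρ := hν.trans_lt hρ
  obtain ⟨N, hN⟩ := eventually_atTop.1 (h.eventually (gt_mem_nhds hρ))
  refine ⟨1 + ∑ i ∈ Finset.range (N + 1), (σ G i w : ℝ) / ρ ^ i, by positivity, fun n => ?_⟩
  have hs : 0 ≤ ∑ i ∈ Finset.range (N + 1), (σ G i w : ℝ) / ρ ^ i := by positivity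
  by_cases hn : n < N + 1
  · have h1 : (σ G n w : ℝ) / ρ ^ n ≤ ∑ i ∈ Finset.range (N + 1), (σ G i w : ℝ) / ρ ^ i :=
      Finset.single_le_sum (f := fun i => (σ G i w : ℝ) / ρ ^ i) (fun i _ => by positivity)
        (Finset.mem_range.2 hn)
    rw [div_le_iff₀ (by positivity)] at h1
    have : 0 < ρ ^ n := by positivity
    nlinarith
  · have hn0 : (0 : ℝ) < n := by
      have : 0 < n := by omega
      exact_mod_cast this
    have h1 : root G w n < ρ := hN n (by omega)
    have h2 : (σ G n w : ℝ) ≤ ρ ^ n := by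
      have h3 := pow_le_pow_left₀ (root_nonneg w n) h1.le n
      unfold root at h3
      rwa [← Real.rpow_natCast, ← Real.rpow_mul (Nat.cast_nonneg _), one_div,
        inv_mul_cancel₀ hn0.ne', Real.rpow_one] at h3
    have : 0 < ρ ^ n := by positivity
    nlinarith

theorem le_of_hyp {v : V} {μ ν : ℝ} (h : Tendsto (root G v) atTop (𝓝 μ)) (hν : 0 ≤ ν)
    (hH : Hyp G ν v) : μ ≤ ν := by
  refine le_of_forall_gt_imp_ge_of_dense fun ρ hρ => ?_
  obtain ⟨C, hC, h1⟩ := hH ρ hρ
  have hρ0 : 0 < ρ := hν.trans_lt hρ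
  have h2 : Tendsto (fun n : ℕ => (C + 1) ^ ((1 : ℝ) / n) * ρ) atTop (𝓝 ((C + 1) ^ (0 : ℝ) * ρ)) :=
    ((tendsto_const_nhds.rpow tendsto_one_div_atTop_nhds_zero_nat
      (Or.inl (by positivity))).mul_const ρ)
  rw [Real.rpow_zero, one_mul] at h2
  refine le_of_tendsto_of_tendsto h h2 ?_
  filter_upwards [eventually_ge_atTop 1] with n hn
  have hn0 : (0 : ℝ) < n := by exact_mod_cast hn
  unfold root
  have h3 : (σ G n v : ℝ) ≤ (C + 1) * ρ ^ n := by
    have := h1 n
    have h4 : 0 < ρ ^ n := by positivity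
    nlinarith
  calc (σ G n v : ℝ) ^ ((1 : ℝ) / n) ≤ ((C + 1) * ρ ^ n) ^ ((1 : ℝ) / n) :=
        Real.rpow_le_rpow (Nat.cast_nonneg _) h3 (by positivity)
    _ = (C + 1) ^ ((1 : ℝ) / n) * ρ := by
        rw [Real.mul_rpow (by positivity) (by positivity), ← Real.rpow_natCast ρ n,
          ← Real.rpow_mul hρ0.le, one_div, mul_inv_cancel₀ hn0.ne', Real.rpow_one]

/-- **Deterministic form.** Let `G` be a graph in which all vertices have at most `D` neighbours, and let `v`, `w` be in the
same component. If `σ_n(v) ^ (1/n)` tends to `μ` along some sequence of lengths with quotients tending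
to `1`, and `σ_n(w) ^ (1/n)` tends to `ν` along another such sequence, then `μ = ν`, and both
`σ_n(v) ^ (1/n)` and `σ_n(w) ^ (1/n)` tend to this number as `n → ∞`. -/
theorem deterministic (V : Type) (G : SimpleGraph V) (D : ℕ) (hD : DegreeLe G D) (v w : V)
    (hvw : G.Reachable v w) (μ ν : ℝ) (hμ : SparseLimit G v μ) (hν : SparseLimit G w ν) :
    μ = ν ∧ Tendsto (root G v) atTop (𝓝 μ) ∧ Tendsto (root G w) atTop (𝓝 μ) := by
  have h1 := full hD hμ
  have h2 := full hD hν
  have hμ0 : 0 ≤ μ := ge_of_tendsto' h1 fun n => root_nonneg v n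
  have hν0 : 0 ≤ ν := ge_of_tendsto' h2 fun n => root_nonneg w n
  have h3 : μ = ν := le_antisymm
    (le_of_hyp h1 hν0 (hyp_reachable hD hν0 hvw (hyp_of_tendsto h2)))
    (le_of_hyp h2 hμ0 (hyp_reachable hD hμ0 hvw.symm (hyp_of_tendsto h1)))
  exact ⟨h3, h1, by rw [h3]; exact h2⟩

/-- The graph of the open edges on `ℤ²`: `(x, false)` is the edge from `x` to the right and
`(x, true)` the edge from `x` upwards; `O` is the set of the open edges. -/
def openGraph (O : Set ((ℤ × ℤ) × Bool)) : SimpleGraph (ℤ × ℤ) :=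
  SimpleGraph.fromRel fun x y => (y = (x.1 + 1, x.2) ∧ (x, false) ∈ O) ∨
    (y = (x.1, x.2 + 1) ∧ (x, true) ∈ O)

theorem degree_open (O : Set ((ℤ × ℤ) × Bool)) : DegreeLe (openGraph O) 4 := by
  classical
  intro v
  have hsub : (openGraph O).neighborSet v ⊆
      ({(v.1 + 1, v.2), (v.1 - 1, v.2), (v.1, v.2 + 1), (v.1, v.2 - 1)} : Finset (ℤ × ℤ)) := by
    intro w hw
    rw [SimpleGraph.mem_neighborSet, openGraph, SimpleGraph.fromRel_adj] at hw
    obtain ⟨-, (⟨h, -⟩ | ⟨h, -⟩) | (⟨h, -⟩ | ⟨h, -⟩)⟩ := hw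
    · simp [h]
    · simp [h]
    · have : w = (v.1 - 1, v.2) := by rw [h]; simp
      simp [this]
    · have : w = (v.1, v.2 - 1) := by rw [h]; simp
      simp [this]
  refine ⟨(Finset.finite_toSet _).subset hsub, ?_⟩
  refine (Set.ncard_le_ncard hsub (Finset.finite_toSet _)).trans ?_
  rw [Set.ncard_coe_finset]
  exact Finset.card_le_four

theorem sparse_of_full {V : Type} {G : SimpleGraph V} {v : V} {μ : ℝ}
    (h : Tendsto (root G v) atTop (𝓝 μ)) : SparseLimit G v μ := by
  have hinf : Tendsto (fun k : ℕ => (k : ℝ) + 1) atTop atTop :=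
    tendsto_atTop_add_const_right _ _ tendsto_natCast_atTop_atTop
  refine ⟨fun k => k + 1, tendsto_add_atTop_nat 1, ?_, h.comp (tendsto_add_atTop_nat 1)⟩
  have h2 : Tendsto (fun k : ℕ => 1 + 1 / ((k : ℝ) + 1)) atTop (𝓝 (1 + 0)) :=
    tendsto_const_nhds.add (tendsto_const_nhds.div_atTop hinf)
  rw [add_zero] at h2
  refine h2.congr fun k => ?_
  push_cast
  field_simp

/-- Let the edges of `ℤ²` be open at random, with any joint distribution: `A e` is the event that the
edge `e` is open. The following are equivalent. First: almost surely, for all `v`, `w` in one open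
cluster, `σ_n(v) ^ (1/n)` and `σ_n(w) ^ (1/n)` converge to the same limit. Second: for each `v`, almost
surely `σ_n(v) ^ (1/n)` converges along some (random) sequence of lengths that tends to infinity,
with quotients tending to `1`. -/
theorem result (Ω : Type) [MeasurableSpace Ω] (P : MeasureTheory.Measure Ω)
    (A : (ℤ × ℤ) × Bool → Set Ω) :
    (∀ᵐ ω ∂P, ∀ v w : ℤ × ℤ, (openGraph {e | ω ∈ A e}).Reachable v w → ∃ μ : ℝ,
      Tendsto (fun n : ℕ => (σ (openGraph {e | ω ∈ A e}) n v : ℝ) ^ ((1 : ℝ) / n)) atTop (𝓝 μ) ∧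
      Tendsto (fun n : ℕ => (σ (openGraph {e | ω ∈ A e}) n w : ℝ) ^ ((1 : ℝ) / n)) atTop (𝓝 μ)) ↔
    ∀ v : ℤ × ℤ, ∀ᵐ ω ∂P, ∃ μ : ℝ, SparseLimit (openGraph {e | ω ∈ A e}) v μ := by
  constructor
  · intro h v
    filter_upwards [h] with ω hω
    obtain ⟨μ, h1, -⟩ := hω v v (SimpleGraph.Reachable.refl v)
    exact ⟨μ, sparse_of_full h1⟩
  · intro h
    filter_upwards [MeasureTheory.ae_all_iff.2 h] with ω hω v w hvw
    obtain ⟨μ, hμ⟩ := hω v
    obtain ⟨ν, hν⟩ := hω w
    obtain ⟨-, h1, h2⟩ := deterministic _ _ 4 (degree_open _) v w hvw μ ν hμ hν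
    exact ⟨μ, h1, h2⟩

end Pool.Agent.Results.MP_425fca_pr.SparseTimes
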